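import Pool.Agent.W4.CF.Stms3

/-!
# Project VC: Vojta's inequality with discriminant term on cyclic covers of the projective line whose
branch points have degree at most three

Statements of the parts. `hom f n a b = b ^ n f(a / b)` is the binary form of degree `n` attached to
the polynomial `f` of degree at most `n`.
-/

set_option autoImplicit false

namespace Pool.Agent.W4.VC

open Finset Polynomial Pool.Agent.W4.CF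

/-- the binary form of degree `n` attached to `f` -/
def hom (f : ℤ[X]) (n : ℕ) (a b : ℤ) : ℤ := ∑ j ∈ range (n + 1), f.coeff j * a ^ j * b ^ (n - j)

/-- `f` defines a binary form of degree `n` without multiple factors -/
def Sqf (f : ℤ[X]) (n : ℕ) : Prop :=
  Squarefree (f.map (Int.castRingHom ℚ)) ∧ f.natDegree ≤ n ∧ n ≤ f.natDegree + 1

/-- ROOT: the number of roots of a polynomial modulo `N`. -/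
def S_ROOT : Prop := ∀ f : ℤ[X], Squarefree (f.map (Int.castRingHom ℚ)) → ∀ ε : ℝ, 0 < ε →
  ∃ C : ℝ, 0 < C ∧ ∀ N : ℕ, 1 ≤ N →
    (((range N).filter (fun t : ℕ => (N : ℤ) ∣ f.eval (t : ℤ))).card : ℝ) ≤ C * (N : ℝ) ^ ε

/-- CLS: the coprime pairs where the form is divisible by `N` fall into few classes; inside a class
all determinants are divisible by `N`. -/
def S_CLS : Prop := ∀ (f : ℤ[X]) (n : ℕ), Sqf f n → ∀ ε : ℝ, 0 < ε →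
  ∃ C : ℝ, 0 < C ∧ ∀ N : ℕ, 1 ≤ N → ∃ (κ : ℤ × ℤ → ℕ × ℕ × ℕ) (L : Finset (ℕ × ℕ × ℕ)),
    (L.card : ℝ) ≤ C * (N : ℝ) ^ ε ∧
    (∀ p : ℤ × ℤ, IsCoprime p.1 p.2 → (N : ℤ) ∣ hom f n p.1 p.2 → κ p ∈ L) ∧
    ∀ p p' : ℤ × ℤ, IsCoprime p.1 p.2 → IsCoprime p'.1 p'.2 → (N : ℤ) ∣ hom f n p.1 p.2 →
      (N : ℤ) ∣ hom f n p'.1 p'.2 → κ p = κ p' → (N : ℤ) ∣ p.1 * p'.2 - p'.1 * p.2

/-- SEP: one of the complex linear factors is small when the form is small. -/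
def S_SEP : Prop := ∀ (f : ℤ[X]) (n : ℕ), Sqf f n → 1 ≤ n →
  ∃ (ℓ : Fin n → ℂ × ℂ) (C : ℝ), 0 < C ∧ (∀ j, ‖(ℓ j).1‖ = 1 ∨ ‖(ℓ j).2‖ = 1) ∧
    ∀ a b : ℤ, ∃ j, ‖(ℓ j).1 * (a : ℂ) + (ℓ j).2 * (b : ℂ)‖ *
      (max |(a : ℝ)| |(b : ℝ)|) ^ (n - 1) ≤ C * |((hom f n a b : ℤ) : ℝ)|

/-- LAT: the number of pairs where the form is small and divisible by `N`. -/
def S_LAT : Prop := ∀ (f : ℤ[X]) (n : ℕ), Sqf f n → 1 ≤ n → ∀ ε : ℝ, 0 < ε →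
  ∃ C : ℝ, 0 < C ∧ ∀ (Y ρ : ℝ) (N : ℕ), 1 ≤ Y → 0 ≤ ρ → 1 ≤ N → ∀ s : Finset (ℤ × ℤ),
    (∀ p ∈ s, Dy Y p ∧ (N : ℤ) ∣ hom f n p.1 p.2 ∧ |((hom f n p.1 p.2 : ℤ) : ℝ)| ≤ ρ) →
    (s.card : ℝ) ≤ C * (N : ℝ) ^ ε * (ρ * Y ^ 2 / (Y ^ n * N) + 1)

/-- the powerful part of `n` -/
def pw (n : ℕ) : ℕ :=
  ∏ p ∈ n.primeFactors.filter (fun p => n.factorization p ≠ 1), p ^ n.factorization p

/-- the part of `n` prime to the primes in `S` -/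
def off (S : Finset ℕ) (n : ℕ) : ℕ :=
  ∏ p ∈ n.primeFactors.filter (fun p => p ∉ S), p ^ n.factorization p

/-- SELW: a number with a large powerful part is divisible by the square of a number in a given
range, or by the square of a large prime. -/
def S_SELW : Prop := ∀ (n : ℕ) (T U : ℝ), 1 ≤ n → 1 ≤ T → T ^ 2 ≤ U → T ^ 3 ≤ (pw n : ℝ) →
  (∃ e : ℕ, e ^ 2 ∣ n ∧ T ≤ (e : ℝ) ∧ (e : ℝ) ≤ U) ∨
  ∃ p : ℕ, p.Prime ∧ U < (p : ℝ) ∧ p ^ 2 ∣ n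

/-- RED2: as RED, but with powers of primes. -/
def S_RED2 : Prop := ∀ a b c d : ℤ, disc3 a b c d ≠ 0 → ∃ (A B : ℤ) (M : ℕ) (C : ℝ)
  (φ : ℤ × ℤ → ℤ × ℤ), 4 * A ^ 3 - 27 * B ^ 2 ≠ 0 ∧ 1 ≤ M ∧ 1 ≤ C ∧
    ∀ p : ℤ × ℤ, IsCoprime p.1 p.2 → F3 a b c d p.1 p.2 ≠ 0 →
      IsCoprime (φ p).1 (φ p).2 ∧ G A B (φ p).1 (φ p).2 ≠ 0 ∧
      max |((φ p).1 : ℝ)| |((φ p).2 : ℝ)| ≤ C * max |(p.1 : ℝ)| |(p.2 : ℝ)| ∧
      (∀ q : ℕ, q.Prime → ¬ q ∣ M → ∀ k : ℕ, (q : ℤ) ^ k ∣ F3 a b c d p.1 p.2 →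
        (q : ℤ) ^ k ∣ G A B (φ p).1 (φ p).2) ∧
      ∀ p' : ℤ × ℤ, IsCoprime p'.1 p'.2 → φ p = φ p' → p' = p ∨ p' = (-p.1, -p.2)

/-- property (B) for every form `G A B` -/
def S_HB : Prop := ∀ A B : ℤ, 4 * A ^ 3 - 27 * B ^ 2 ≠ 0 → ∃ i : ℕ, 1 ≤ i ∧ HB A B i

/-- BIG: few values of a cubic form are divisible by the square of a prime exceeding `C Y^(4/3)`. -/
def S_BIG : Prop := ∀ a b c d : ℤ, disc3 a b c d ≠ 0 → ∀ ε : ℝ, 0 < ε →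
  ∃ C : ℝ, 0 < C ∧ ∀ Y : ℝ, 1 ≤ Y → ∀ s : Finset (ℤ × ℤ),
    (∀ p ∈ s, Dy Y p ∧ F3 a b c d p.1 p.2 ≠ 0 ∧ ∃ l : ℕ, l.Prime ∧
      C * Y ^ ((4 : ℝ) / 3) < (l : ℝ) ∧ (l : ℤ) ^ 2 ∣ F3 a b c d p.1 p.2) →
    (s.card : ℝ) ≤ C * Y ^ ((4 : ℝ) / 3 + ε)

/-- HOM: the form of a product, size, translation to coefficients. -/
def S_HOM : Prop :=
  (∀ (f g : ℤ[X]) (n m : ℕ), f.natDegree ≤ n → g.natDegree ≤ m → ∀ a b : ℤ,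
    hom (f * g) (n + m) a b = hom f n a b * hom g m a b) ∧
  (∀ (f : ℤ[X]) (n : ℕ), ∃ C : ℝ, 1 ≤ C ∧ ∀ a b : ℤ,
    |((hom f n a b : ℤ) : ℝ)| ≤ C * (max |(a : ℝ)| |(b : ℝ)|) ^ n) ∧
  (∀ f : ℤ[X], Sqf f 3 → disc3 (f.coeff 3) (f.coeff 2) (f.coeff 1) (f.coeff 0) ≠ 0 ∧
    ∀ a b : ℤ, hom f 3 a b = F3 (f.coeff 3) (f.coeff 2) (f.coeff 1) (f.coeff 0) a b)

/-- REV: exchanging the two variables. -/
def S_REV : Prop := ∀ (f : ℤ[X]) (n : ℕ), Sqf f n →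
  ∃ g : ℤ[X], Sqf g n ∧ ∀ a b : ℤ, hom g n b a = hom f n a b

/-- RES: two factors of a squarefree form have few common prime divisors. -/
def S_RES : Prop := ∀ (f g : ℤ[X]) (n m : ℕ), f.natDegree ≤ n → g.natDegree ≤ m →
  Sqf (f * g) (n + m) → Sqf f n ∧ Sqf g m ∧ ∃ M : ℕ, 1 ≤ M ∧ ∀ a b : ℤ, IsCoprime a b →
    ∀ p : ℕ, p.Prime → (p : ℤ) ∣ hom f n a b → (p : ℤ) ∣ hom g m a b → p ∣ M

end Pool.Agent.W4.VC
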