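import Pool.Agent.W4.VC.Final2
import Pool.Agent.W4.CF.Deg3All
import Pool.Agent.W177.VC.ROOT
import Pool.Agent.W101.VC.CLS
import Pool.Agent.W349.VC.SEP
import Pool.Agent.W349.VC.LAT
import Pool.Agent.W327.VC.Selw
import Pool.Agent.W333.VC.RED2
import Pool.Agent.W320.VC.BIG
import Pool.Agent.W505.VC.HOM
import Pool.Agent.W505.VC.REV
import Pool.Agent.W290.VC.Res

/-!
# Project VC: assembly
-/

set_option autoImplicit false

namespace Pool.Agent.W4.VC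

open Finset Polynomial Pool.Agent.W4.CF IntermediateField

theorem t_LAT : S_LAT :=
  Pool.Agent.W349.VC.t_LAT
    (Pool.Agent.W101.VC.t_CLS Pool.Agent.W177.VC.ROOT.t_ROOT Pool.Agent.W505.VC.t_REV)
    Pool.Agent.W349.VC.t_SEP

theorem t_BIG : S_BIG := Pool.Agent.W320.VC.t_BIG Pool.Agent.W333.VC.t_RED2 Pool.Agent.W4.CF.hHB

/-- The inequality with proximity terms, outside `C B ^ (4/3 + δ)` rational numbers. -/
theorem general (m : ℕ) (hm : 2 ≤ m) (k : ℕ) (f : Fin k → ℤ[X]) (n : Fin k → ℕ) (g : ℤ[X]) (e : ℕ)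
    (hf : ∀ i, (f i).natDegree ≤ n i) (hn : ∀ i, n i ≤ 3) (hg : g.natDegree ≤ e)
    (hsq : Sqf ((∏ i, f i) * g) (∑ i, n i + e)) (hr : 1 ≤ ∑ i, n i + e) (S : Finset ℕ)
    (c δ : ℝ) (hδ : 0 < δ) :
    ∃ C : ℝ, ∀ B : ℝ, 1 ≤ B → ∃ T : Finset ℚ, (T.card : ℝ) ≤ C * B ^ ((4 : ℝ) / 3 + δ) ∧
      ∀ (x : ℚ) (y : ℂ), height x ≤ Real.log B →
      hom ((∏ i, f i) * g) (∑ i, n i + e) x.num x.den ≠ 0 →
      y ^ m = (hom (∏ i, f i) (∑ i, n i) x.num x.den : ℂ) → x ∉ T →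
      (((∑ i, n i + e : ℕ) : ℝ) * height x -
        Real.log (off S (hom ((∏ i, f i) * g) (∑ i, n i + e) x.num x.den).natAbs)) +
        (((∑ i, n i : ℕ) : ℝ) * (1 - 1 / m) - 2) * height x ≤ logDisc y + c :=
  final_of Pool.Agent.W505.VC.t_HOM m hm (∏ i, f i) g (∑ i, n i) e
    (hom_prod Pool.Agent.W505.VC.t_HOM.1 univ f n (fun i _ => hf i) 0 0).1 hg S (4 / 3)
    (by norm_num)
    (fun c ε hc hε => main t_LAT Pool.Agent.W327.VC.Selw.t_SELW t_BIG Pool.Agent.W505.VC.t_HOM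
      Pool.Agent.W290.VC.t_RES k f n g e hf hn hg hsq hr S c ε hc hε) c δ hδ

/-- The inequality without proximity terms. -/
theorem noD (m : ℕ) (hm : 2 ≤ m) (k : ℕ) (f : Fin k → ℤ[X]) (n : Fin k → ℕ)
    (hf : ∀ i, (f i).natDegree ≤ n i) (hn : ∀ i, n i ≤ 3)
    (hsq : Sqf (∏ i, f i) (∑ i, n i)) (hr : 1 ≤ ∑ i, n i)
    (c δ : ℝ) (hδ : 0 < δ) :
    ∃ C : ℝ, ∀ B : ℝ, 1 ≤ B → ∃ T : Finset ℚ, (T.card : ℝ) ≤ C * B ^ ((4 : ℝ) / 3 + δ) ∧
      ∀ (x : ℚ) (y : ℂ), height x ≤ Real.log B → y ≠ 0 →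
      y ^ m = ((∏ i, hom (f i) (n i) x.num x.den : ℤ) : ℂ) → x ∉ T →
        (((∑ i, n i : ℕ) : ℝ) * (1 - 1 / m) - 2) * height x ≤ logDisc y + c := by
  have hH := Pool.Agent.W505.VC.t_HOM
  obtain ⟨CR, hCR, hsR⟩ := hH.2.1 (∏ i, f i) (∑ i, n i)
  obtain ⟨C, hC⟩ := general m hm k f n 1 0 hf hn (by simp) (by simpa using hsq) (by simpa using hr)
    ∅ (c - Real.log CR) δ hδ
  refine ⟨C, fun B hB => ?_⟩
  obtain ⟨T, hT, hmain⟩ := hC B hB
  refine ⟨T, hT, fun x y hx hy0 hy hxT => ?_⟩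
  have hprod : hom (∏ i, f i) (∑ i, n i) x.num x.den = ∏ i, hom (f i) (n i) x.num x.den :=
    (hom_prod hH.1 univ f n (fun i _ => hf i) _ _).2
  rw [← hprod] at hy
  have hN0 : hom (∏ i, f i) (∑ i, n i) x.num x.den ≠ 0 := by
    intro h0
    rw [h0, Int.cast_zero] at hy
    exact hy0 (pow_eq_zero_iff (by omega)|>.mp hy)
  simp only [mul_one, add_zero] at hmain
  have h1 := hmain x y hx hN0 hy hxT
  set N := hom (∏ i, f i) (∑ i, n i) x.num x.den with hN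
  have hNa : N.natAbs ≠ 0 := Int.natAbs_ne_zero.mpr hN0
  have hoff : off ∅ N.natAbs = N.natAbs := by
    have h2 := on_mul_off ∅ N.natAbs hNa
    have h3 : on ∅ N.natAbs = 1 := by
      unfold on
      simp
    rw [h3, one_mul] at h2
    exact h2
  rw [hoff] at h1
  have hmx : mx (x.num, (x.den : ℤ)) = ((max x.num.natAbs x.den : ℕ) : ℝ) := by
    unfold mx
    rw [Nat.cast_max, Nat.cast_natAbs, Int.cast_abs]
    simp only [Int.cast_natCast]
    rw [abs_of_nonneg (Nat.cast_nonneg (α := ℝ) x.den)]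
  have hmx1 : 1 ≤ mx (x.num, (x.den : ℤ)) := by
    rw [hmx]
    exact_mod_cast le_max_of_le_right x.pos
  have h2 : Real.log (N.natAbs : ℝ) ≤ Real.log CR + ((∑ i, n i : ℕ) : ℝ) * height x := by
    have hh : height x = Real.log (mx (x.num, (x.den : ℤ))) := by rw [hmx]; rfl
    rw [hh, ← Real.log_pow, ← Real.log_mul (by linarith) (by positivity)]
    apply Real.log_le_log
    · exact_mod_cast Nat.pos_of_ne_zero hNa
    · have h3 := hsR x.num x.den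
      rw [Nat.cast_natAbs]
      push_cast
      exact h3
  linarith

end Pool.Agent.W4.VC
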