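import Pool.Agent.H813R3.Voj.DiscM2

/-!
# Project VC: the discriminant of `ℚ(y)`, `y ^ m = n`
-/

set_option autoImplicit false

namespace Pool.Agent.W4.VC

open NumberField IntermediateField

theorem log_disc {y : ℂ} {n : ℤ} {m : ℕ} (hm : 0 < m) (hy : y ^ m = n)
    [NumberField ℚ⟮y⟯] (P : Finset ℕ)
    (hP : ∀ p ∈ P, p.Prime ∧ (p : ℤ) ∣ n ∧ ¬ (p : ℤ) ^ 2 ∣ n) :
    ((m : ℝ) - 1) * ∑ p ∈ P, Real.log p ≤
      m * (Real.log |(NumberField.discr ℚ⟮y⟯ : ℝ)| / Module.finrank ℚ ℚ⟮y⟯) := by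
  have hd0 : NumberField.discr ℚ⟮y⟯ ≠ 0 := NumberField.discr_ne_zero _
  have hint : IsIntegral ℤ (AdjoinSimple.gen ℚ y) := by
    refine IsIntegral.of_pow (n := m) hm ?_
    have h1 : (AdjoinSimple.gen ℚ y) ^ m = algebraMap ℤ ℚ⟮y⟯ n := by
      apply Subtype.ext
      push_cast
      rw [AdjoinSimple.coe_gen]
      simpa using hy
    rw [h1]
    exact isIntegral_algebraMap
  obtain ⟨w, hw⟩ : ∃ w : 𝓞 ℚ⟮y⟯, (w : ℚ⟮y⟯) = AdjoinSimple.gen ℚ y := ⟨⟨_, hint⟩, rfl⟩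
  have hwm : w ^ m = ((n : ℤ) : 𝓞 ℚ⟮y⟯) := by
    apply RingOfIntegers.ext
    have h5 : ((w ^ m : 𝓞 ℚ⟮y⟯) : ℚ⟮y⟯) = (w : ℚ⟮y⟯) ^ m := by simp
    rw [h5, hw]
    apply Subtype.ext
    push_cast
    rw [AdjoinSimple.coe_gen]
    simpa using hy
  have hdvd : ∀ p ∈ P, p ^ (m - 1) ∣ (NumberField.discr ℚ⟮y⟯).natAbs := by
    intro p hp
    obtain ⟨h1, ⟨u, hu⟩, h3⟩ := hP p hp
    refine Pool.Agent.H813R3.Voj.pow_dvd_discr h1 w u (by rw [hwm, hu]) ?_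
    rintro ⟨t, ht⟩
    exact h3 ⟨t, by rw [hu, ht]; ring⟩
  have h1 : (∏ p ∈ P, p) ^ (m - 1) ∣ (NumberField.discr ℚ⟮y⟯).natAbs := by
    rw [← Finset.prod_pow]
    refine Finset.prod_dvd_of_isRelPrime ?_ hdvd
    intro p hp q hq hpq
    rw [Finset.mem_coe] at hp hq
    rw [Function.onFun, ← Nat.coprime_iff_isRelPrime]
    exact Nat.Coprime.pow _ _ ((Nat.coprime_primes (hP p hp).1 (hP q hq).1).mpr hpq)
  have h2 := Nat.le_of_dvd (Int.natAbs_pos.mpr hd0) h1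
  have h3 : ((∏ p ∈ P, p : ℕ) : ℝ) ^ (m - 1) ≤ |(NumberField.discr ℚ⟮y⟯ : ℝ)| := by
    have : ((NumberField.discr ℚ⟮y⟯).natAbs : ℝ) = |(NumberField.discr ℚ⟮y⟯ : ℝ)| := by
      rw [Nat.cast_natAbs]; push_cast; rfl
    rw [← this]
    exact_mod_cast h2
  have h4 : (0 : ℝ) < ((∏ p ∈ P, p : ℕ) : ℝ) := by
    exact_mod_cast Finset.prod_pos fun p hp => (hP p hp).1.pos
  have h5 := Real.log_le_log (by positivity) h3
  rw [Real.log_pow, Nat.cast_sub (by omega : 1 ≤ m), Nat.cast_one, Nat.cast_prod,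
    Real.log_prod (fun p hp => by exact_mod_cast (hP p hp).1.ne_zero)] at h5
  have h6 : 0 ≤ Real.log |(NumberField.discr ℚ⟮y⟯ : ℝ)| := by
    refine Real.log_nonneg ?_
    have h9 : 1 ≤ |NumberField.discr ℚ⟮y⟯| := Int.one_le_abs hd0
    exact_mod_cast h9
  have h7 : (0 : ℝ) < Module.finrank ℚ ℚ⟮y⟯ := by exact_mod_cast Module.finrank_pos
  have h8 : (Module.finrank ℚ ℚ⟮y⟯ : ℝ) ≤ m := by
    exact_mod_cast Pool.Agent.H813R3.Voj.finrank_le hm hy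
  refine h5.trans ?_
  rw [← mul_div_assoc, le_div_iff₀ h7]
  nlinarith

end Pool.Agent.W4.VC
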