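import Pool.Agent.W4.VC.Main
import Pool.Agent.W4.VC.Disc

/-!
# Project VC: dyadic summation, and the inequality for points of cyclic covers
-/

set_option autoImplicit false

namespace Pool.Agent.W4.VC

open Finset Polynomial Pool.Agent.W4.CF IntermediateField

/-- the size of a pair -/
noncomputable def mx (p : ℤ × ℤ) : ℝ := max |(p.1 : ℝ)| |(p.2 : ℝ)|

theorem count (R : ℤ[X]) (r : ℕ) (F : ℤ[X]) (q : ℕ) (S : Finset ℕ) (c e ε : ℝ) (hc : 0 < c)
    (he : 0 ≤ e) (hε : 0 < ε)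
    (hmain : ∃ C : ℝ, 0 < C ∧ ∀ Y : ℝ, 1 ≤ Y → ∀ s : Finset (ℤ × ℤ),
      (∀ p ∈ s, Dy Y p ∧ hom R r p.1 p.2 ≠ 0 ∧
        c / 4 * Y ^ 2 * (off S (hom R r p.1 p.2).natAbs : ℝ) ^ 3 ≤
          (pw (off S (hom F q p.1 p.2).natAbs) : ℝ) * Y ^ (3 * r)) →
      (s.card : ℝ) ≤ C * Y ^ (e + ε / 2)) :
    ∃ C : ℝ, 0 < C ∧ ∀ B : ℝ, 1 ≤ B → ∀ s : Finset (ℤ × ℤ),
      (∀ p ∈ s, IsCoprime p.1 p.2 ∧ mx p ≤ B ∧ hom R r p.1 p.2 ≠ 0 ∧
        c * mx p ^ 2 * (off S (hom R r p.1 p.2).natAbs : ℝ) ^ 3 ≤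
          (pw (off S (hom F q p.1 p.2).natAbs) : ℝ) * mx p ^ (3 * r)) →
      (s.card : ℝ) ≤ C * B ^ (e + ε) := by
  classical
  obtain ⟨C5, hC5, hcount⟩ := hmain
  obtain ⟨C7, hC7, hlog⟩ := log_boundR 2 (ε / 2) (by norm_num) (by positivity)
  refine ⟨C5 * 2 ^ (e + ε / 2) * C7, by positivity, fun B hB s hs => ?_⟩
  have hB0 : 0 < B := by linarith
  let mn : ℤ × ℤ → ℕ := fun p => max p.1.natAbs p.2.natAbs
  have hmn : ∀ p, (mn p : ℝ) = mx p := by
    intro p
    show ((max p.1.natAbs p.2.natAbs : ℕ) : ℝ) = _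
    rw [Nat.cast_max, Nat.cast_natAbs, Nat.cast_natAbs, Int.cast_abs, Int.cast_abs]
    rfl
  have hmn1 : ∀ p ∈ s, 1 ≤ mn p := by
    intro p hp
    obtain ⟨h1, -⟩ := hs p hp
    by_contra hcon
    have h0 : mn p = 0 := by omega
    have hz1 : p.1 = 0 := by
      have : p.1.natAbs ≤ mn p := le_max_left _ _
      omega
    have hz2 : p.2 = 0 := by
      have : p.2.natAbs ≤ mn p := le_max_right _ _
      omega
    rw [hz1, hz2] at h1
    obtain ⟨u, v, huv⟩ := h1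
    simp at huv
  have hclog : ∀ p ∈ s, (mn p : ℝ) ≤ 2 ^ Nat.clog 2 (mn p) ∧
      (2 : ℝ) ^ Nat.clog 2 (mn p) ≤ 2 * mn p := by
    intro p hp
    have h1 := hmn1 p hp
    refine ⟨by exact_mod_cast Nat.le_pow_clog (by norm_num) (mn p), ?_⟩
    rcases Nat.lt_or_ge 1 (mn p) with h | h
    · have h2 := Nat.pow_pred_clog_lt_self (b := 2) (by norm_num) h
      have h3 : 0 < Nat.clog 2 (mn p) := Nat.clog_pos (by norm_num) h
      have h4 : 2 ^ Nat.clog 2 (mn p) = 2 * 2 ^ (Nat.clog 2 (mn p)).pred := by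
        rw [← pow_succ']
        exact congrArg (fun t => 2 ^ t) (Nat.succ_pred_eq_of_pos h3).symm
      have h5 : 2 ^ Nat.clog 2 (mn p) ≤ 2 * mn p := by rw [h4]; omega
      exact_mod_cast h5
    · have h2 : mn p = 1 := by omega
      rw [h2]
      norm_num
  have hYB : ∀ p ∈ s, (2 : ℝ) ^ Nat.clog 2 (mn p) ≤ 2 * B := by
    intro p hp
    obtain ⟨h1, h2, -⟩ := hs p hp
    calc (2 : ℝ) ^ Nat.clog 2 (mn p) ≤ 2 * mn p := (hclog p hp).2
      _ = 2 * mx p := by rw [hmn]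
      _ ≤ _ := by linarith
  set J : ℕ := Nat.log 2 ⌊2 * B⌋₊ + 1 with hJ
  have hcov : s ⊆ (range J).biUnion (fun j => s.filter (fun p => Nat.clog 2 (mn p) = j)) := by
    intro p hp
    rw [mem_biUnion]
    refine ⟨Nat.clog 2 (mn p), ?_, mem_filter.mpr ⟨hp, rfl⟩⟩
    rw [mem_range, hJ, Nat.lt_succ_iff]
    apply Nat.le_log_of_pow_le (by norm_num)
    apply Nat.le_floor
    push_cast
    exact hYB p hp
  have hclass : ∀ j ∈ range J,
      ((s.filter (fun p => Nat.clog 2 (mn p) = j)).card : ℝ) ≤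
        C5 * 2 ^ (e + ε / 2) * B ^ (e + ε / 2) := by
    intro j hj
    set T := s.filter (fun p => Nat.clog 2 (mn p) = j) with hTd
    rcases T.eq_empty_or_nonempty with hemp | hne
    · rw [hemp, card_empty]
      push_cast
      positivity
    have hY1 : (1 : ℝ) ≤ 2 ^ j := one_le_pow₀ (by norm_num)
    have hTm : ∀ p ∈ T, p ∈ s ∧ Nat.clog 2 (mn p) = j := by
      intro p hp
      rw [hTd, mem_filter] at hp
      exact hp
    have hYX' : (2 : ℝ) ^ j ≤ 2 * B := by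
      obtain ⟨p, hp⟩ := hne
      obtain ⟨h1, h2⟩ := hTm p hp
      have := hYB p h1
      rwa [h2] at this
    refine (hcount (2 ^ j) hY1 T ?_).trans ?_
    · intro p hp
      obtain ⟨hps, hpj⟩ := hTm p hp
      obtain ⟨h1, h2, h3, h4⟩ := hs p hps
      obtain ⟨k1, k2⟩ := hclog p hps
      rw [hpj, hmn] at k1 k2
      have hm1 : 1 ≤ mx p := by
        rw [← hmn]
        exact_mod_cast hmn1 p hps
      have hm0 : 0 < mx p := by linarith
      refine ⟨⟨h1, (le_max_left _ _).trans k1, (le_max_right _ _).trans k1, k2⟩, h3, ?_⟩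
      have k3 : ((2 : ℝ) ^ j) ^ 2 ≤ 4 * mx p ^ 2 := by
        calc ((2 : ℝ) ^ j) ^ 2 ≤ (2 * mx p) ^ 2 := by gcongr
          _ = _ := by ring
      have k4 : mx p ^ (3 * r) ≤ ((2 : ℝ) ^ j) ^ (3 * r) := by gcongr
      calc c / 4 * ((2 : ℝ) ^ j) ^ 2 * (off S (hom R r p.1 p.2).natAbs : ℝ) ^ 3 ≤
            c / 4 * (4 * mx p ^ 2) * (off S (hom R r p.1 p.2).natAbs : ℝ) ^ 3 := by gcongr
        _ = c * mx p ^ 2 * (off S (hom R r p.1 p.2).natAbs : ℝ) ^ 3 := by ring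
        _ ≤ _ := h4
        _ ≤ _ := by gcongr
    · calc C5 * ((2 : ℝ) ^ j) ^ (e + ε / 2) ≤ C5 * (2 * B) ^ (e + ε / 2) := by gcongr
        _ = _ := by
          rw [Real.mul_rpow (by norm_num) hB0.le]
          ring
  calc (s.card : ℝ) ≤ (((range J).biUnion
        (fun j => s.filter (fun p => Nat.clog 2 (mn p) = j))).card : ℝ) := by
        exact_mod_cast card_le_card hcov
    _ ≤ ∑ j ∈ range J, ((s.filter (fun p => Nat.clog 2 (mn p) = j)).card : ℝ) := by
        exact_mod_cast card_biUnion_le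
    _ ≤ ∑ j ∈ range J, C5 * 2 ^ (e + ε / 2) * B ^ (e + ε / 2) := sum_le_sum hclass
    _ = C5 * 2 ^ (e + ε / 2) * B ^ (e + ε / 2) * J := by
        rw [sum_const, card_range, nsmul_eq_mul, mul_comm]
    _ ≤ C5 * 2 ^ (e + ε / 2) * B ^ (e + ε / 2) * (C7 * B ^ (ε / 2)) := by
        gcongr
        exact hlog B hB
    _ = C5 * 2 ^ (e + ε / 2) * C7 * (B ^ (e + ε / 2) * B ^ (ε / 2)) := by ring
    _ = _ := by
        rw [← Real.rpow_add hB0]
        congr 2
        ring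

/-- the primes dividing `n` exactly once, outside `S` -/
def ex (S : Finset ℕ) (n : ℕ) : Finset ℕ :=
  n.primeFactors.filter (fun p => p ∉ S ∧ n.factorization p = 1)

theorem off_eq (S : Finset ℕ) (n : ℕ) (hn : n ≠ 0) :
    off S n = (∏ p ∈ ex S n, p) * pw (off S n) := by
  have h0 := off_pos S n
  have h1 := Nat.prod_factorization_pow_eq_self h0.ne'
  have hpf : (off S n).primeFactors = n.primeFactors.filter (fun p => p ∉ S) := by
    ext p
    rw [Nat.mem_primeFactors, mem_filter, Nat.mem_primeFactors]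
    constructor
    · rintro ⟨hp, hd, -⟩
      exact ⟨⟨hp, hd.trans (off_dvd S n hn), hn⟩, off_prime_dvd S n p hp hd⟩
    · rintro ⟨⟨hp, hd, -⟩, hS⟩
      refine ⟨hp, ?_, h0.ne'⟩
      have h2 := off_factorization S n p hn hp hS
      have h3 : 1 ≤ n.factorization p := (hp.dvd_iff_one_le_factorization hn).mp hd
      rw [← h2] at h3
      exact (hp.dvd_iff_one_le_factorization h0.ne').mpr h3
  conv_lhs => rw [← h1]
  show ∏ p ∈ (off S n).primeFactors, p ^ (off S n).factorization p = _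
  rw [← prod_filter_mul_prod_filter_not (off S n).primeFactors
    (fun p => (off S n).factorization p = 1)]
  congr 1
  have hset : (off S n).primeFactors.filter (fun p => (off S n).factorization p = 1) = ex S n := by
    ext p
    unfold ex
    rw [hpf, mem_filter, mem_filter, mem_filter]
    constructor
    · rintro ⟨⟨h2, h3⟩, h4⟩
      rw [off_factorization S n p hn (Nat.prime_of_mem_primeFactors h2) h3] at h4
      exact ⟨h2, h3, h4⟩
    · rintro ⟨h2, h3, h4⟩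
      refine ⟨⟨h2, h3⟩, ?_⟩
      rw [off_factorization S n p hn (Nat.prime_of_mem_primeFactors h2) h3]
      exact h4
  rw [← hset]
  refine prod_congr rfl fun p hp => ?_
  rw [(mem_filter.mp hp).2, pow_one]

/-- the algebra: failure of the inequality gives a large powerful part -/
theorem algebra (m : ℕ) (hm : 2 ≤ m) (h rho lF lG lR lJ lW cG cR c d q r e : ℝ) (hh : 0 ≤ h)
    (hrho : rho = r * h - lR) (hR : lR = lF + lG) (hG : lG ≤ cG + e * h)
    (hRR : lR ≤ cR + r * h) (hcR : 0 ≤ cR) (hr : r = q + e) (hF : lF = lJ + lW)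
    (hJ : ((m : ℝ) - 1) * lJ ≤ m * d) (hfail : d + c < rho + (q * (1 - 1 / m) - 2) * h) :
    2 * h - 3 * rho - (cG + cR + 2 * |c|) ≤ lW := by
  have hm2 : (2 : ℝ) ≤ m := by exact_mod_cast hm
  have hm0 : (0 : ℝ) < m := by linarith
  have h1 : (m : ℝ) * (d + c) < m * rho + (q * (m - 1) - 2 * m) * h := by
    have h2 := mul_lt_mul_of_pos_left hfail hm0
    have h3 : (m : ℝ) * (rho + (q * (1 - 1 / m) - 2) * h) =
        m * rho + (q * (m - 1) - 2 * m) * h := by
      field_simp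
    linarith
  have hrhoR : - cR ≤ rho := by linarith
  have hFlow : q * h - rho - cG ≤ lF := by
    rw [hrho, hr]
    nlinarith
  -- (m-1) lW = (m-1) lF - (m-1) lJ ≥ (m-1)(q h - rho - cG) - m d
  have h4 : ((m : ℝ) - 1) * (q * h - rho - cG) ≤ (m - 1) * lF :=
    mul_le_mul_of_nonneg_left hFlow (by linarith)
  have h5 : ((m : ℝ) - 1) * lW = (m - 1) * lF - (m - 1) * lJ := by rw [hF]; ring
  have h6 : 2 * m * h - (2 * m - 1) * rho - (m - 1) * cG + m * c ≤ ((m : ℝ) - 1) * lW := by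
    rw [h5]
    nlinarith
  have hc1 : -|c| ≤ c := neg_abs_le c
  have hc0 : 0 ≤ |c| := abs_nonneg c
  have h7 : ((m : ℝ) - 1) * (2 * h - 3 * rho - (cG + cR + 2 * |c|)) ≤ ((m : ℝ) - 1) * lW := by
    refine le_trans ?_ h6
    nlinarith [mul_nonneg (by linarith : (0 : ℝ) ≤ m - 2) (by linarith : (0 : ℝ) ≤ rho + cR),
      mul_nonneg (by linarith : (0 : ℝ) ≤ m - 2) hc0, mul_nonneg hm0.le
        (by linarith : 0 ≤ c + |c|)]
  exact le_of_mul_le_mul_left h7 (by linarith)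

end Pool.Agent.W4.VC
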