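import Pool.Agent.W4.VC.Final

/-!
# Project VC: the inequality for points of cyclic covers
-/

set_option autoImplicit false

namespace Pool.Agent.W4.VC

open Finset Polynomial Pool.Agent.W4.CF IntermediateField

/-- The logarithmic height of a rational number. -/
noncomputable def height (x : ℚ) : ℝ := Real.log ((max x.num.natAbs x.den : ℕ) : ℝ)

open Classical in
/-- The logarithmic discriminant of the field `ℚ(y)`. -/
noncomputable def logDisc (y : ℂ) : ℝ :=
  if _ : NumberField ℚ⟮y⟯ then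
    Real.log |(NumberField.discr ℚ⟮y⟯ : ℝ)| / Module.finrank ℚ ℚ⟮y⟯ else 0

/-- the exceptional condition -/
def Exc (R : ℤ[X]) (r : ℕ) (F : ℤ[X]) (q : ℕ) (S : Finset ℕ) (c : ℝ) (p : ℤ × ℤ) : Prop :=
  IsCoprime p.1 p.2 ∧ hom R r p.1 p.2 ≠ 0 ∧
    c * mx p ^ 2 * (off S (hom R r p.1 p.2).natAbs : ℝ) ^ 3 ≤
      (pw (off S (hom F q p.1 p.2).natAbs) : ℝ) * mx p ^ (3 * r)

theorem exc_of_fail (hHOM : S_HOM) (m : ℕ) (hm : 2 ≤ m) (F g : ℤ[X]) (q e : ℕ)
    (hF : F.natDegree ≤ q) (hg : g.natDegree ≤ e) (S : Finset ℕ) (c : ℝ) :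
    ∃ c0 : ℝ, 0 < c0 ∧ ∀ (x : ℚ) (y : ℂ), hom (F * g) (q + e) x.num x.den ≠ 0 →
      y ^ m = (hom F q x.num x.den : ℂ) →
      logDisc y + c < (((q + e : ℕ) : ℝ) * height x -
        Real.log (off S (hom (F * g) (q + e) x.num x.den).natAbs)) +
        (q * (1 - 1 / m) - 2) * height x →
      Exc (F * g) (q + e) F q S c0 (x.num, (x.den : ℤ)) := by
  classical
  obtain ⟨CR, hCR, hsR⟩ := hHOM.2.1 (F * g) (q + e)
  obtain ⟨CG, hCG, hsG⟩ := hHOM.2.1 g e
  refine ⟨Real.exp (-(Real.log CG + Real.log CR + 2 * |c|)), Real.exp_pos _, ?_⟩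
  intro x y hR0 hy hfail
  set p : ℤ × ℤ := (x.num, (x.den : ℤ)) with hp
  have hfac : hom (F * g) (q + e) x.num x.den = hom F q x.num x.den * hom g e x.num x.den :=
    hHOM.1 F g q e hF hg _ _
  set N : ℤ := hom F q x.num x.den with hN
  set R : ℤ := hom (F * g) (q + e) x.num x.den with hRd
  set G : ℤ := hom g e x.num x.den with hG
  have hN0 : N ≠ 0 := fun h0 => hR0 (by rw [hfac, h0, zero_mul])
  have hG0 : G ≠ 0 := fun h0 => hR0 (by rw [hfac, h0, mul_zero])
  have hNa : N.natAbs ≠ 0 := Int.natAbs_ne_zero.mpr hN0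
  have hGa : G.natAbs ≠ 0 := Int.natAbs_ne_zero.mpr hG0
  have hRa : R.natAbs ≠ 0 := Int.natAbs_ne_zero.mpr hR0
  have hmx : mx p = ((max x.num.natAbs x.den : ℕ) : ℝ) := by
    unfold mx
    rw [hp, Nat.cast_max, Nat.cast_natAbs, Int.cast_abs]
    simp only [Int.cast_natCast]
    rw [abs_of_nonneg (Nat.cast_nonneg (α := ℝ) x.den)]
  have hmx1 : 1 ≤ mx p := by
    rw [hmx]
    exact_mod_cast le_max_of_le_right x.pos
  have hh : height x = Real.log (mx p) := by rw [hmx]; rfl
  have hh0 : 0 ≤ height x := by rw [hh]; exact Real.log_nonneg hmx1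
  -- the multiplicativity of `off`
  have hoffmul : off S R.natAbs = off S N.natAbs * off S G.natAbs := by
    have h1 := on_mul_off S R.natAbs hRa
    have h2 := on_mul_off S N.natAbs hNa
    have h3 := on_mul_off S G.natAbs hGa
    apply Nat.eq_of_factorization_eq (off_pos S _).ne'
      (mul_ne_zero (off_pos S _).ne' (off_pos S _).ne')
    intro l
    rw [Nat.factorization_mul (off_pos S _).ne' (off_pos S _).ne', Finsupp.add_apply]
    rcases em (l.Prime) with hl | hl
    · rcases em (l ∈ S) with hlS | hlS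
      · have hz : ∀ n : ℕ, (off S n).factorization l = 0 := fun n =>
          Nat.factorization_eq_zero_of_not_dvd (fun hd => off_prime_dvd S n l hl hd hlS)
        rw [hz, hz, hz]
      · rw [off_factorization S _ l hRa hl hlS, off_factorization S _ l hNa hl hlS,
          off_factorization S _ l hGa hl hlS, hfac, Int.natAbs_mul,
          Nat.factorization_mul hNa hGa, Finsupp.add_apply]
    · rw [Nat.factorization_eq_zero_of_not_prime _ hl, Nat.factorization_eq_zero_of_not_prime _ hl,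
        Nat.factorization_eq_zero_of_not_prime _ hl]
  have hoffle : ∀ n : ℕ, n ≠ 0 → (off S n : ℝ) ≤ n := fun n hn => by
    exact_mod_cast Nat.le_of_dvd (Nat.pos_of_ne_zero hn) (off_dvd S n hn)
  have hoff1 : ∀ n : ℕ, (0 : ℝ) < off S n := fun n => by exact_mod_cast off_pos S n
  have habs : ∀ z : ℤ, ((z.natAbs : ℕ) : ℝ) = |(z : ℝ)| := fun z => by
    rw [Nat.cast_natAbs]; push_cast; rfl
  -- the primes dividing exactly once
  have hnf := Pool.Agent.H813R3.Voj.numberField_of_powM (by omega : 0 < m) hy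
  have hJ := log_disc (by omega : 0 < m) hy (ex S N.natAbs) (by
    intro l hl
    unfold ex at hl
    rw [mem_filter] at hl
    obtain ⟨h1, h2, h3⟩ := hl
    have hlp := Nat.prime_of_mem_primeFactors h1
    refine ⟨hlp, Int.natCast_dvd.mpr (Nat.dvd_of_mem_primeFactors h1), ?_⟩
    intro h4
    rw [← Nat.cast_pow, Int.natCast_dvd] at h4
    have h5 := (hlp.pow_dvd_iff_le_factorization hNa).mp h4
    omega)
  have hld : logDisc y = Real.log |(NumberField.discr ℚ⟮y⟯ : ℝ)| / Module.finrank ℚ ℚ⟮y⟯ := by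
    unfold logDisc
    rw [dif_pos hnf]
  have hw0 : (0 : ℝ) < pw (off S N.natAbs) := by
    have : 0 < pw (off S N.natAbs) := by
      unfold pw
      exact prod_pos fun l hl =>
        pow_pos (Nat.prime_of_mem_primeFactors (mem_filter.mp hl).1).pos _
    exact_mod_cast this
  have hFeq : Real.log (off S N.natAbs) = (∑ l ∈ ex S N.natAbs, Real.log l) +
      Real.log (pw (off S N.natAbs)) := by
    have h1 := off_eq S N.natAbs hNa
    have h2 : ∀ l ∈ ex S N.natAbs, ((l : ℕ) : ℝ) ≠ 0 := by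
      intro l hl
      unfold ex at hl
      exact_mod_cast (Nat.prime_of_mem_primeFactors (mem_filter.mp hl).1).ne_zero
    have h3 : ((off S N.natAbs : ℕ) : ℝ) = (∏ l ∈ ex S N.natAbs, ((l : ℕ) : ℝ)) *
        (pw (off S N.natAbs) : ℝ) := by
      conv_lhs => rw [h1]
      push_cast
      rfl
    rw [h3, Real.log_mul (prod_ne_zero_iff.mpr h2) hw0.ne', Real.log_prod h2]
  have hsizeR : Real.log (off S R.natAbs) ≤ Real.log CR + ((q + e : ℕ) : ℝ) * height x := by
    rw [hh, ← Real.log_pow, ← Real.log_mul (by linarith) (by positivity)]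
    apply Real.log_le_log (hoff1 _)
    refine (hoffle _ hRa).trans ?_
    rw [habs]
    exact hsR x.num x.den
  have hsizeG : Real.log (off S G.natAbs) ≤ Real.log CG + (e : ℝ) * height x := by
    rw [hh, ← Real.log_pow, ← Real.log_mul (by linarith) (by positivity)]
    apply Real.log_le_log (hoff1 _)
    refine (hoffle _ hGa).trans ?_
    rw [habs]
    exact hsG x.num x.den
  have hlogR : Real.log (off S R.natAbs) = Real.log (off S N.natAbs) +
      Real.log (off S G.natAbs) := by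
    rw [hoffmul]
    push_cast
    exact Real.log_mul (hoff1 _).ne' (hoff1 _).ne'
  have hkey := algebra m hm (height x) _ (Real.log (off S N.natAbs)) (Real.log (off S G.natAbs))
    (Real.log (off S R.natAbs)) (∑ l ∈ ex S N.natAbs, Real.log l)
    (Real.log (pw (off S N.natAbs))) (Real.log CG) (Real.log CR) c (logDisc y) (q : ℝ)
    ((q + e : ℕ) : ℝ) (e : ℝ) hh0 rfl hlogR hsizeG hsizeR (Real.log_nonneg hCR)
    (by push_cast; ring) hFeq (by rw [hld]; exact hJ) hfail
  refine ⟨?_, hR0, ?_⟩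
  · rw [hp]
    exact Int.isCoprime_iff_gcd_eq_one.mpr x.reduced
  · show Real.exp (-(Real.log CG + Real.log CR + 2 * |c|)) * mx p ^ 2 *
      (off S R.natAbs : ℝ) ^ 3 ≤ (pw (off S N.natAbs) : ℝ) * mx p ^ (3 * (q + e))
    have hmx0 : 0 < mx p := by linarith
    have hl : Real.log (Real.exp (-(Real.log CG + Real.log CR + 2 * |c|)) * mx p ^ 2 *
        (off S R.natAbs : ℝ) ^ 3) ≤ Real.log ((pw (off S N.natAbs) : ℝ) *
          mx p ^ (3 * (q + e))) := by
      rw [Real.log_mul (by positivity) (pow_ne_zero _ (hoff1 _).ne'),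
        Real.log_mul (by positivity) (by positivity), Real.log_exp, Real.log_pow, Real.log_pow,
        Real.log_mul hw0.ne' (by positivity), Real.log_pow]
      rw [hh] at hkey
      push_cast at hkey ⊢
      linarith
    exact (Real.log_le_log_iff (mul_pos (by positivity) (pow_pos (hoff1 _) 3))
      (by positivity)).mp hl

/-- the inequality outside few rational numbers -/
theorem final_of (hHOM : S_HOM) (m : ℕ) (hm : 2 ≤ m) (F g : ℤ[X]) (q e : ℕ)
    (hF : F.natDegree ≤ q) (hg : g.natDegree ≤ e) (S : Finset ℕ) (E : ℝ) (hE : 0 ≤ E)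
    (hmain : ∀ c ε : ℝ, 0 < c → 0 < ε → ∃ C : ℝ, 0 < C ∧ ∀ Y : ℝ, 1 ≤ Y → ∀ s : Finset (ℤ × ℤ),
      (∀ p ∈ s, Dy Y p ∧ hom (F * g) (q + e) p.1 p.2 ≠ 0 ∧
        c * Y ^ 2 * (off S (hom (F * g) (q + e) p.1 p.2).natAbs : ℝ) ^ 3 ≤
          (pw (off S (hom F q p.1 p.2).natAbs) : ℝ) * Y ^ (3 * (q + e))) →
      (s.card : ℝ) ≤ C * Y ^ (E + ε)) (c δ : ℝ) (hδ : 0 < δ) :
    ∃ C : ℝ, ∀ B : ℝ, 1 ≤ B → ∃ T : Finset ℚ, (T.card : ℝ) ≤ C * B ^ (E + δ) ∧
      ∀ (x : ℚ) (y : ℂ), height x ≤ Real.log B → hom (F * g) (q + e) x.num x.den ≠ 0 →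
      y ^ m = (hom F q x.num x.den : ℂ) → x ∉ T →
      (((q + e : ℕ) : ℝ) * height x -
        Real.log (off S (hom (F * g) (q + e) x.num x.den).natAbs)) +
        (q * (1 - 1 / m) - 2) * height x ≤ logDisc y + c := by
  classical
  obtain ⟨c0, hc0, hexc⟩ := exc_of_fail hHOM m hm F g q e hF hg S c
  obtain ⟨C, hC, hcount⟩ := count (F * g) (q + e) F q S c0 E δ hc0 hE hδ
    (hmain (c0 / 4) (δ / 2) (by positivity) (by positivity))
  refine ⟨C, fun B hB => ?_⟩
  have hB0 : 0 < B := by linarith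
  set s : Finset (ℤ × ℤ) := (Icc (-⌊B⌋) ⌊B⌋ ×ˢ Icc (-⌊B⌋) ⌊B⌋).filter
    (fun p => mx p ≤ B ∧ Exc (F * g) (q + e) F q S c0 p) with hs
  refine ⟨s.image (fun p => (p.1 : ℚ) / p.2), ?_, ?_⟩
  · refine le_trans (by exact_mod_cast card_image_le) (hcount B hB s ?_)
    intro p hp
    rw [hs, mem_filter] at hp
    obtain ⟨-, h1, h2, h3, h4⟩ := hp
    exact ⟨h2, h1, h3, h4⟩
  · intro x y hx hR hy hxT
    by_contra hcon
    push Not at hcon
    apply hxT
    rw [mem_image]
    refine ⟨(x.num, (x.den : ℤ)), ?_, ?_⟩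
    · have hmax : ((max x.num.natAbs x.den : ℕ) : ℝ) ≤ B := by
        unfold height at hx
        refine (Real.log_le_log_iff ?_ hB0).mp hx
        exact_mod_cast (lt_max_of_lt_right x.pos : 0 < max x.num.natAbs x.den)
      have h1 : |x.num| ≤ ⌊B⌋ := by
        rw [Int.le_floor]
        refine le_trans ?_ hmax
        have : ((x.num.natAbs : ℕ) : ℝ) ≤ ((max x.num.natAbs x.den : ℕ) : ℝ) := by
          exact_mod_cast le_max_left _ _
        rwa [Nat.cast_natAbs] at this
      have h2 : ((x.den : ℕ) : ℤ) ≤ ⌊B⌋ := by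
        rw [Int.le_floor]
        refine le_trans ?_ hmax
        push_cast
        exact le_max_right _ _
      rw [hs, mem_filter, mem_product, mem_Icc, mem_Icc]
      refine ⟨⟨abs_le.mp h1, ⟨?_, h2⟩⟩, ?_, hexc x y hR hy hcon⟩
      · have : (0 : ℤ) ≤ x.den := Int.natCast_nonneg _
        show -⌊B⌋ ≤ (x.den : ℤ)
        linarith
      · unfold mx
        rw [Nat.cast_max] at hmax
        refine le_trans (le_of_eq ?_) hmax
        rw [Nat.cast_natAbs, Int.cast_abs]
        simp only [Int.cast_natCast]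
        rw [abs_of_nonneg (Nat.cast_nonneg (α := ℝ) x.den)]
    · show (x.num : ℚ) / ((x.den : ℤ) : ℚ) = x
      rw [Int.cast_natCast]
      exact Rat.num_div_den x

end Pool.Agent.W4.VC
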