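import Pool.Agent.W4.VC.MainA
import Pool.Agent.W4.CF.Deg3

/-!
# Project VC: the main count
-/

set_option autoImplicit false

namespace Pool.Agent.W4.VC

open Finset Polynomial Pool.Agent.W4.CF

theorem hom_prod (h1 : ∀ (f g : ℤ[X]) (n m : ℕ), f.natDegree ≤ n → g.natDegree ≤ m → ∀ a b : ℤ,
    hom (f * g) (n + m) a b = hom f n a b * hom g m a b) {ι : Type} [DecidableEq ι]
    (s : Finset ι) (f : ι → ℤ[X]) (n : ι → ℕ) (hf : ∀ i ∈ s, (f i).natDegree ≤ n i) (a b : ℤ) :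
    (∏ i ∈ s, f i).natDegree ≤ ∑ i ∈ s, n i ∧
    hom (∏ i ∈ s, f i) (∑ i ∈ s, n i) a b = ∏ i ∈ s, hom (f i) (n i) a b := by
  induction s using Finset.induction_on with
  | empty =>
    refine ⟨by simp, ?_⟩
    simp [hom]
  | insert i s hi ih =>
    obtain ⟨ih1, ih2⟩ := ih (fun j hj => hf j (mem_insert_of_mem hj))
    rw [prod_insert hi, sum_insert hi, prod_insert hi]
    refine ⟨?_, ?_⟩
    · refine natDegree_mul_le.trans ?_
      exact add_le_add (hf i (mem_insert_self i s)) ih1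
    · rw [h1 _ _ _ _ (hf i (mem_insert_self i s)) ih1, ih2]

/-- the structure of the factors -/
theorem factors (hHOM : S_HOM) (hRES : S_RES) (k : ℕ) (f : Fin k → ℤ[X]) (n : Fin k → ℕ)
    (hf : ∀ i, (f i).natDegree ≤ n i) (hsq : Sqf (∏ i, f i) (∑ i, n i)) :
    (∀ i, Sqf (f i) (n i)) ∧ ∃ M : ℕ, 1 ≤ M ∧ ∀ a b : ℤ, IsCoprime a b → ∀ l : ℕ, l.Prime →
      M < l → (l : ℤ) ^ 2 ∣ hom (∏ i, f i) (∑ i, n i) a b → ∃ i, (l : ℤ) ^ 2 ∣ hom (f i) (n i) a b := by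
  classical
  have hsplit : ∀ i, Sqf (f i) (n i) ∧ ∃ M : ℕ, 1 ≤ M ∧ ∀ a b : ℤ, IsCoprime a b →
      ∀ p : ℕ, p.Prime → (p : ℤ) ∣ hom (f i) (n i) a b →
        (p : ℤ) ∣ ∏ j ∈ univ.erase i, hom (f j) (n j) a b → p ∣ M := by
    intro i
    have hd := fun a b => hom_prod hHOM.1 (univ.erase i) f n (fun j _ => hf j) a b
    have h1 := hRES (f i) (∏ j ∈ univ.erase i, f j) (n i) (∑ j ∈ univ.erase i, n j) (hf i)
      (hd 0 0).1 (by
        rw [mul_prod_erase univ f (mem_univ i), add_sum_erase univ n (mem_univ i)]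
        exact hsq)
    obtain ⟨h2, -, M, hM, h3⟩ := h1
    refine ⟨h2, M, hM, fun a b hab p hp hp1 hp2 => ?_⟩
    rw [← (hd a b).2] at hp2
    exact h3 a b hab p hp hp1 hp2
  refine ⟨fun i => (hsplit i).1, ?_⟩
  choose h0 M hM hM2 using hsplit
  refine ⟨∏ i, M i, Nat.succ_le_of_lt (prod_pos fun i _ => hM i), ?_⟩
  intro a b hab l hl hlM hd
  rw [(hom_prod hHOM.1 univ f n (fun i _ => hf i) a b).2] at hd
  have hd' : l ^ 2 ∣ ∏ i, (hom (f i) (n i) a b).natAbs := by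
    rw [← Nat.cast_pow, Int.natCast_dvd] at hd
    have h1 := map_prod Int.natAbsHom (fun i => hom (f i) (n i) a b) univ
    simp only [Int.natAbsHom, MonoidWithZeroHom.coe_mk, ZeroHom.coe_mk] at h1
    rwa [h1] at hd
  rcases sq_dvd_prod univ (fun i => (hom (f i) (n i) a b).natAbs) l hl hd' with ⟨i, -, hi⟩ |
    ⟨i, -, j, -, hij, hi, hj⟩
  · refine ⟨i, ?_⟩
    rw [← Nat.cast_pow, Int.natCast_dvd]
    exact hi
  · exfalso
    have h1 : l ∣ M i := by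
      refine hM2 i a b hab l hl (Int.natCast_dvd.mpr hi) ?_
      exact (Int.natCast_dvd.mpr hj).trans (dvd_prod_of_mem (fun j => hom (f j) (n j) a b)
        (mem_erase.mpr ⟨hij.symm, mem_univ j⟩))
    have h2 : l ∣ ∏ i, M i := h1.trans (dvd_prod_of_mem M (mem_univ i))
    have h3 := Nat.le_of_dvd (prod_pos fun i _ => hM i) h2
    omega

/-- points where the form is divisible by the square of a large prime -/
theorem bigpart (hHOM : S_HOM) (hRES : S_RES) (hBIG : S_BIG) (k : ℕ) (f : Fin k → ℤ[X])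
    (n : Fin k → ℕ) (hf : ∀ i, (f i).natDegree ≤ n i) (hn : ∀ i, n i ≤ 3)
    (hsq : Sqf (∏ i, f i) (∑ i, n i)) (ε : ℝ) (hε : 0 < ε) :
    ∃ C : ℝ, 1 ≤ C ∧ ∀ Y : ℝ, 1 ≤ Y → ∀ s : Finset (ℤ × ℤ),
      (∀ p ∈ s, Dy Y p ∧ hom (∏ i, f i) (∑ i, n i) p.1 p.2 ≠ 0 ∧ ∃ l : ℕ, l.Prime ∧
        C * Y ^ ((4 : ℝ) / 3) < (l : ℝ) ∧
        (l : ℤ) ^ 2 ∣ hom (∏ i, f i) (∑ i, n i) p.1 p.2) →
      (s.card : ℝ) ≤ C * Y ^ ((4 : ℝ) / 3 + ε) := by
  classical
  obtain ⟨hsqi, M, hM, hM2⟩ := factors hHOM hRES k f n hf hsq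
  -- each factor
  have hone : ∀ i, ∃ C : ℝ, 0 < C ∧ ∀ Y : ℝ, 1 ≤ Y → ∀ s : Finset (ℤ × ℤ),
      (∀ p ∈ s, Dy Y p ∧ hom (f i) (n i) p.1 p.2 ≠ 0 ∧ ∃ l : ℕ, l.Prime ∧
        C * Y ^ ((4 : ℝ) / 3) < (l : ℝ) ∧ (l : ℤ) ^ 2 ∣ hom (f i) (n i) p.1 p.2) →
      (s.card : ℝ) ≤ C * Y ^ ((4 : ℝ) / 3 + ε) := by
    intro i
    rcases lt_or_eq_of_le (hn i) with h3 | h3
    · obtain ⟨C, hC, hsize⟩ := hHOM.2.1 (f i) (n i)
      refine ⟨C, by linarith, fun Y hY s hs => ?_⟩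
      have hempty : s = ∅ := by
        rw [eq_empty_iff_forall_notMem]
        intro p hp
        obtain ⟨⟨h1, h2, h3', -⟩, h4, l, hl, hlY, hld⟩ := hs p hp
        have h5 := hsize p.1 p.2
        have h6 : max |(p.1 : ℝ)| |(p.2 : ℝ)| ≤ Y := max_le h2 h3'
        have h7 : (max |(p.1 : ℝ)| |(p.2 : ℝ)|) ^ (n i) ≤ Y ^ 2 := by
          calc (max |(p.1 : ℝ)| |(p.2 : ℝ)|) ^ (n i) ≤ Y ^ (n i) :=
                pow_le_pow_left₀ (le_max_of_le_left (abs_nonneg _)) h6 _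
            _ ≤ Y ^ 2 := pow_le_pow_right₀ hY (by omega)
        have h8 : ((l : ℝ)) ^ 2 ≤ |((hom (f i) (n i) p.1 p.2 : ℤ) : ℝ)| := by
          have h9 := Int.le_of_dvd (abs_pos.mpr h4) ((dvd_abs _ _).mpr hld)
          have h10 : (((l : ℤ) ^ 2 : ℤ) : ℝ) ≤ ((|hom (f i) (n i) p.1 p.2| : ℤ) : ℝ) := by
            exact_mod_cast h9
          push_cast at h10
          exact h10
        have h11 : Y ≤ Y ^ ((4 : ℝ) / 3) := by
          calc Y = Y ^ (1 : ℝ) := (Real.rpow_one Y).symm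
            _ ≤ _ := Real.rpow_le_rpow_of_exponent_le hY (by norm_num)
        have h12 : C * Y < l := lt_of_le_of_lt (by gcongr) hlY
        have h13 : (C * Y) ^ 2 < (l : ℝ) ^ 2 := by
          apply pow_lt_pow_left₀ h12 (by positivity) (by norm_num)
        have h14 : (C * Y) ^ 2 < C * Y ^ 2 := by
          calc (C * Y) ^ 2 < (l : ℝ) ^ 2 := h13
            _ ≤ _ := h8
            _ ≤ _ := h5
            _ ≤ C * Y ^ 2 := by gcongr
        nlinarith [sq_nonneg Y, mul_nonneg (mul_nonneg (by linarith : 0 ≤ C)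
          (by linarith : 0 ≤ C - 1)) (sq_nonneg Y)]
      rw [hempty, card_empty]
      push_cast
      positivity
    · obtain ⟨h4, h5⟩ := hHOM.2.2 (f i) (by rw [← h3]; exact hsqi i)
      obtain ⟨C, hC, h6⟩ := hBIG _ _ _ _ h4 ε hε
      refine ⟨C, hC, fun Y hY s hs => h6 Y hY s fun p hp => ?_⟩
      have h7 := hs p hp
      rw [h3, h5] at h7
      exact h7
  choose C hC hcount using hone
  have hsum : ∀ i, C i ≤ ∑ i, C i := fun i =>
    single_le_sum (f := C) (fun j _ => (hC j).le) (mem_univ i)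
  refine ⟨∑ i, C i + M, ?_, fun Y hY s hs => ?_⟩
  · have h1 : (1 : ℝ) ≤ M := by exact_mod_cast hM
    have h2 : 0 ≤ ∑ i, C i := sum_nonneg fun i _ => (hC i).le
    linarith
  have hY43 : 1 ≤ Y ^ ((4 : ℝ) / 3) := Real.one_le_rpow hY (by norm_num)
  have hM0 : (0 : ℝ) ≤ M := Nat.cast_nonneg M
  have hS0 : 0 ≤ ∑ i, C i := sum_nonneg fun i _ => (hC i).le
  have hcov : s ⊆ (univ : Finset (Fin k)).biUnion (fun i => s.filter (fun p => ∃ l : ℕ, l.Prime ∧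
      C i * Y ^ ((4 : ℝ) / 3) < (l : ℝ) ∧ (l : ℤ) ^ 2 ∣ hom (f i) (n i) p.1 p.2)) := by
    intro p hp
    obtain ⟨h1, h2, l, hl, hlY, hld⟩ := hs p hp
    have hlM : M < l := by
      have : (M : ℝ) < l := by nlinarith
      exact_mod_cast this
    obtain ⟨i, hi⟩ := hM2 p.1 p.2 h1.1 l hl hlM hld
    rw [mem_biUnion]
    refine ⟨i, mem_univ i, mem_filter.mpr ⟨hp, l, hl, ?_, hi⟩⟩
    refine lt_of_le_of_lt ?_ hlY
    have := hsum i
    gcongr
    linarith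
  calc (s.card : ℝ) ≤ ∑ i, ((s.filter (fun p => ∃ l : ℕ, l.Prime ∧
      C i * Y ^ ((4 : ℝ) / 3) < (l : ℝ) ∧ (l : ℤ) ^ 2 ∣ hom (f i) (n i) p.1 p.2)).card : ℝ) := by
        exact_mod_cast (card_le_card hcov).trans card_biUnion_le
    _ ≤ ∑ i, C i * Y ^ ((4 : ℝ) / 3 + ε) := by
        refine sum_le_sum fun i _ => hcount i Y hY _ ?_
        intro p hp
        rw [mem_filter] at hp
        obtain ⟨h1, h2, -⟩ := hs p hp.1
        refine ⟨h1, ?_, hp.2⟩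
        rw [(hom_prod hHOM.1 univ f n (fun i _ => hf i) p.1 p.2).2] at h2
        exact fun h0 => h2 (prod_eq_zero (mem_univ i) h0)
    _ = (∑ i, C i) * Y ^ ((4 : ℝ) / 3 + ε) := by rw [sum_mul]
    _ ≤ _ := by
        gcongr
        linarith

/-- the main count -/
theorem main (hLAT : S_LAT) (hSELW : S_SELW) (hBIG : S_BIG) (hHOM : S_HOM) (hRES : S_RES)
    (k : ℕ) (f : Fin k → ℤ[X]) (n : Fin k → ℕ) (g : ℤ[X]) (e : ℕ)
    (hf : ∀ i, (f i).natDegree ≤ n i) (hn : ∀ i, n i ≤ 3) (hg : g.natDegree ≤ e)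
    (hsq : Sqf ((∏ i, f i) * g) (∑ i, n i + e)) (hr : 1 ≤ ∑ i, n i + e) (S : Finset ℕ)
    (c ε : ℝ) (hc : 0 < c) (hε : 0 < ε) :
    ∃ C : ℝ, 0 < C ∧ ∀ Y : ℝ, 1 ≤ Y → ∀ s : Finset (ℤ × ℤ),
      (∀ p ∈ s, Dy Y p ∧ hom ((∏ i, f i) * g) (∑ i, n i + e) p.1 p.2 ≠ 0 ∧
        c * Y ^ 2 * (off S (hom ((∏ i, f i) * g) (∑ i, n i + e) p.1 p.2).natAbs : ℝ) ^ 3 ≤
          (pw (off S (hom (∏ i, f i) (∑ i, n i) p.1 p.2).natAbs) : ℝ) *
            Y ^ (3 * (∑ i, n i + e))) →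
      (s.card : ℝ) ≤ C * Y ^ ((4 : ℝ) / 3 + ε) := by
  classical
  set F := ∏ i, f i with hFd
  set q := ∑ i, n i with hq
  set R := F * g with hR
  set r := q + e with hrd
  have hFdeg : F.natDegree ≤ q := (hom_prod hHOM.1 univ f n (fun i _ => hf i) 0 0).1
  obtain ⟨hsqF, -, -⟩ := hRES F g q e hFdeg hg hsq
  set ε1 : ℝ := ε / (3 * r + 3) with hε1d
  have hε1 : 0 < ε1 := by positivity
  obtain ⟨C0, hC0, hLat⟩ := hLAT R r hsq hr ε1 hε1
  obtain ⟨CR, hCR, hsize⟩ := hHOM.2.1 R r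
  obtain ⟨CB, hCB, hbig⟩ := bigpart hHOM hRES hBIG k f n hf hn hsqF ε hε
  obtain ⟨CS, hCS, hsm⟩ := smooth_count S ε1 hε1
  obtain ⟨CL, hCL, hlog⟩ := log_boundR CR ε1 hCR hε1
  set c1 : ℝ := (c * CR ^ 3 / 8) ^ ((1 : ℝ) / 3) with hc1d
  have hc1 : 0 < c1 := by positivity
  have hc13 : c1 ^ 3 = c * CR ^ 3 / 8 := by
    rw [hc1d, ← Real.rpow_natCast, ← Real.rpow_mul (by positivity)]
    norm_num
  set CU : ℝ := CB + c1 ^ 2 with hCUd
  have hCU : 1 ≤ CU := by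
    rw [hCUd]
    nlinarith [sq_nonneg c1]
  -- the total
  refine ⟨CB + (CS * (CR) ^ ε1) * CL * (C0 * (CR * CU ^ 2) ^ ε1 * (2 * CR / c1 + 1 + CU)),
    by positivity, fun Y hY s hs => ?_⟩
  have hY0 : 0 < Y := by linarith
  have hY43 : 1 ≤ Y ^ ((4 : ℝ) / 3) := Real.one_le_rpow hY (by norm_num)
  have hYr : (1 : ℝ) ≤ Y ^ r := one_le_pow₀ hY
  obtain ⟨L, hLc, hL⟩ := hsm (CR * Y ^ r) (by nlinarith)
  set K : ℕ := Nat.log 2 ⌊CR * Y ^ r⌋₊ + 1 with hK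
  have hKc := hlog (Y ^ r) hYr
  -- size facts
  have hfacts : ∀ p ∈ s, ((hom R r p.1 p.2).natAbs : ℝ) ≤ CR * Y ^ r := by
    intro p hp
    obtain ⟨⟨-, h2, h3, -⟩, -, -⟩ := hs p hp
    have h6 : |((hom R r p.1 p.2 : ℤ) : ℝ)| = ((hom R r p.1 p.2).natAbs : ℝ) := by
      rw [Nat.cast_natAbs]; push_cast; rfl
    rw [← h6]
    refine (hsize p.1 p.2).trans ?_
    have := pow_le_pow_left₀ (le_max_of_le_left (abs_nonneg _)) (max_le h2 h3) r
    gcongr
  let kk : ℤ × ℤ → ℕ := fun p =>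
    Nat.log 2 ⌊CR * Y ^ r / (off S (hom R r p.1 p.2).natAbs : ℝ)⌋₊
  let P : ℤ × ℤ → Prop := fun p => ∃ l : ℕ, l.Prime ∧ CB * Y ^ ((4 : ℝ) / 3) < (l : ℝ) ∧
    (l : ℤ) ^ 2 ∣ hom F q p.1 p.2
  have hFR : ∀ p : ℤ × ℤ, hom R r p.1 p.2 = hom F q p.1 p.2 * hom g e p.1 p.2 := fun p =>
    hHOM.1 F g q e hFdeg hg p.1 p.2
  have hcov : s ⊆ s.filter P ∪ (L ×ˢ range K).biUnion (fun t => s.filter
      (fun p => ¬ P p ∧ on S (hom R r p.1 p.2).natAbs = t.1 ∧ kk p = t.2)) := by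
    intro p hp
    rw [mem_union]
    rcases em (P p) with h | h
    · exact Or.inl (mem_filter.mpr ⟨hp, h⟩)
    · right
      obtain ⟨-, h2, -⟩ := hs p hp
      have h2' := Int.natAbs_ne_zero.mpr h2
      have h3 := hfacts p hp
      rw [mem_biUnion]
      refine ⟨(on S (hom R r p.1 p.2).natAbs, kk p), ?_, mem_filter.mpr ⟨hp, h, rfl, rfl⟩⟩
      rw [mem_product]
      constructor
      · refine hL _ (on_pos S _) ?_ (on_primeFactors S _)
        refine le_trans ?_ h3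
        exact_mod_cast Nat.le_of_dvd (Nat.pos_of_ne_zero h2') (on_dvd S _ h2')
      · rw [mem_range, hK, Nat.lt_succ_iff]
        show Nat.log 2 ⌊CR * Y ^ r / (off S (hom R r p.1 p.2).natAbs : ℝ)⌋₊ ≤ _
        apply Nat.log_mono_right
        apply Nat.floor_le_floor
        apply div_le_self (by positivity)
        exact_mod_cast off_pos S _
  have hA : ((s.filter P).card : ℝ) ≤ CB * Y ^ ((4 : ℝ) / 3 + ε) := by
    refine hbig Y hY _ ?_
    intro p hp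
    rw [mem_filter] at hp
    obtain ⟨h1, h2, -⟩ := hs p hp.1
    refine ⟨h1, ?_, hp.2⟩
    rw [hFR] at h2
    exact left_ne_zero_of_mul h2
  have hB : ∀ t ∈ L ×ˢ range K, ((s.filter
      (fun p => ¬ P p ∧ on S (hom R r p.1 p.2).natAbs = t.1 ∧ kk p = t.2)).card : ℝ) ≤
      C0 * (CR * CU ^ 2) ^ ε1 * (2 * CR / c1 + 1 + CU) *
        (Y ^ (((r : ℝ) + 3) * ε1) * Y ^ ((4 : ℝ) / 3)) := by
    intro t _
    set s' := s.filter (fun p => ¬ P p ∧ on S (hom R r p.1 p.2).natAbs = t.1 ∧ kk p = t.2) with hs'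
    rcases s'.eq_empty_or_nonempty with hemp | hne
    · rw [hemp, card_empty]
      push_cast
      positivity
    have hs'm : ∀ p ∈ s', p ∈ s ∧ ¬ P p ∧ on S (hom R r p.1 p.2).natAbs = t.1 ∧ kk p = t.2 := by
      intro p hp
      rw [hs', mem_filter] at hp
      exact hp
    have ht1 : 1 ≤ t.1 := by
      obtain ⟨p, hp⟩ := hne
      rw [← (hs'm p hp).2.2.1]
      exact on_pos S _
    have ht1R : (t.1 : ℝ) ≤ CR * Y ^ r := by
      obtain ⟨p, hp⟩ := hne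
      obtain ⟨h1, -, h3, -⟩ := hs'm p hp
      rw [← h3]
      obtain ⟨-, h2, -⟩ := hs p h1
      have h2' := Int.natAbs_ne_zero.mpr h2
      refine le_trans ?_ (hfacts p h1)
      exact_mod_cast Nat.le_of_dvd (Nat.pos_of_ne_zero h2') (on_dvd S _ h2')
    have hcl := classA R r S C0 ε1 c1 CR CU hC0 hε1 hc1 hCR hCU hLat Y hY t.1 t.2 ht1 s' (by
      intro p hp
      obtain ⟨hps, hnP, h3, h4⟩ := hs'm p hp
      obtain ⟨h1, h2, h5⟩ := hs p hps
      have h2' := Int.natAbs_ne_zero.mpr h2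
      have hoff : (1 : ℝ) ≤ off S (hom R r p.1 p.2).natAbs := by exact_mod_cast off_pos S _
      have hoffle : (off S (hom R r p.1 p.2).natAbs : ℝ) ≤ CR * Y ^ r := by
        refine le_trans ?_ (hfacts p hps)
        exact_mod_cast Nat.le_of_dvd (Nat.pos_of_ne_zero h2') (off_dvd S _ h2')
      set ro : ℝ := (off S (hom R r p.1 p.2).natAbs : ℝ) with hro
      set z : ℝ := CR * Y ^ r / ro with hz
      have hz1 : 1 ≤ z := by
        rw [hz, le_div_iff₀ (by linarith), one_mul]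
        exact hoffle
      have hfl : 1 ≤ ⌊z⌋₊ := by rwa [Nat.one_le_floor_iff]
      have hk1 : (2 : ℝ) ^ t.2 ≤ z := by
        rw [← h4]
        refine le_trans ?_ (Nat.floor_le (by linarith))
        have h6 : 2 ^ Nat.log 2 ⌊z⌋₊ ≤ ⌊z⌋₊ := Nat.pow_log_le_self 2 (by omega)
        have h7 : kk p = Nat.log 2 ⌊z⌋₊ := rfl
        rw [← h7] at h6
        exact_mod_cast h6
      have hk2 : z < 2 ^ (t.2 + 1) := by
        rw [← h4]
        have h6 : ⌊z⌋₊ < 2 ^ (kk p + 1) := Nat.lt_pow_succ_log_self (by norm_num) _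
        exact (Nat.floor_lt (by linarith)).mp (by exact_mod_cast h6) |>.trans_le (by push_cast; rfl)
      have h2k : (0 : ℝ) < 2 ^ t.2 := by positivity
      refine ⟨h1, h2, h3, ?_, ?_⟩
      · rw [le_div_iff₀ h2k]
        rw [hz, le_div_iff₀ (by linarith)] at hk1
        linarith
      · intro hT
        set T : ℝ := c1 * Y ^ ((2 : ℝ) / 3) / 2 ^ t.2 with hTd
        set w := off S (hom F q p.1 p.2).natAbs with hw
        -- `T ^ 3 ≤ pw w`
        have hT3 : T ^ 3 ≤ (pw w : ℝ) := by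
          have e1 : T ^ 3 = c * CR ^ 3 / 8 * Y ^ 2 / (2 ^ t.2) ^ 3 := by
            rw [hTd, div_pow, mul_pow, hc13]
            congr 2
            rw [← Real.rpow_natCast, ← Real.rpow_mul hY0.le]
            norm_num
          rw [e1, div_le_iff₀ (by positivity)]
          have e2 : CR * Y ^ r < ro * 2 ^ (t.2 + 1) := by
            rw [hz, div_lt_iff₀ (by linarith)] at hk2
            linarith
          have e3 : (CR * Y ^ r) ^ 3 ≤ (ro * 2 ^ (t.2 + 1)) ^ 3 := by gcongr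
          have e4 : c * Y ^ 2 * ro ^ 3 ≤ (pw w : ℝ) * Y ^ (3 * r) := h5
          have e5 : 0 < Y ^ (3 * r) := by positivity
          refine le_of_mul_le_mul_right ?_ e5
          calc c * CR ^ 3 / 8 * Y ^ 2 * Y ^ (3 * r) = c / 8 * Y ^ 2 * (CR * Y ^ r) ^ 3 := by ring
            _ ≤ c / 8 * Y ^ 2 * (ro * 2 ^ (t.2 + 1)) ^ 3 := by gcongr
            _ = (c * Y ^ 2 * ro ^ 3) * (2 ^ t.2) ^ 3 := by ring
            _ ≤ ((pw w : ℝ) * Y ^ (3 * r)) * (2 ^ t.2) ^ 3 := by gcongr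
            _ = _ := by ring
        have hTU : T ^ 2 ≤ CU * Y ^ ((4 : ℝ) / 3) := by
          have e1 : T ≤ c1 * Y ^ ((2 : ℝ) / 3) := by
            rw [hTd]
            apply div_le_self (by positivity)
            exact one_le_pow₀ (by norm_num)
          calc T ^ 2 ≤ (c1 * Y ^ ((2 : ℝ) / 3)) ^ 2 := by gcongr
            _ = c1 ^ 2 * Y ^ ((4 : ℝ) / 3) := by
                rw [mul_pow]
                congr 1
                rw [← Real.rpow_natCast, ← Real.rpow_mul hY0.le]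
                norm_num
            _ ≤ _ := by
                gcongr
                rw [hCUd]
                linarith
        have hF0 : hom F q p.1 p.2 ≠ 0 := by
          rw [hFR] at h2
          exact left_ne_zero_of_mul h2
        have hF0' := Int.natAbs_ne_zero.mpr hF0
        rcases hSELW w T (CU * Y ^ ((4 : ℝ) / 3)) (off_pos S _) hT hTU hT3 with
          ⟨e, he1, he2, he3⟩ | ⟨l, hl, hlU, hld⟩
        · refine ⟨e, he1.trans (off_dvd_off S h2' ?_), he2, he3⟩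
          rw [hFR, Int.natAbs_mul]
          exact dvd_mul_right _ _
        · exfalso
          apply hnP
          refine ⟨l, hl, lt_of_le_of_lt ?_ hlU, ?_⟩
          · have : CB ≤ CU := by rw [hCUd]; nlinarith [sq_nonneg c1]
            gcongr
          · rw [← Nat.cast_pow, Int.natCast_dvd]
            exact hld.trans (off_dvd S _ hF0'))
    refine hcl.trans ?_
    have hpow : ((t.1 : ℝ) * (CU * Y ^ ((4 : ℝ) / 3)) ^ 2) ^ ε1 ≤
        (CR * CU ^ 2) ^ ε1 * Y ^ (((r : ℝ) + 3) * ε1) := by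
      rw [Real.rpow_mul hY0.le, ← Real.mul_rpow (by positivity) (by positivity)]
      apply Real.rpow_le_rpow (by positivity) _ hε1.le
      have e1 : (Y ^ ((4 : ℝ) / 3)) ^ 2 ≤ Y ^ 3 := by
        rw [← Real.rpow_natCast, ← Real.rpow_mul hY0.le, ← Real.rpow_natCast Y 3]
        apply Real.rpow_le_rpow_of_exponent_le hY
        norm_num
      have e2 : Y ^ ((r : ℝ) + 3) = Y ^ r * Y ^ 3 := by
        rw [Real.rpow_add hY0, Real.rpow_natCast]
        congr 1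
        rw [← Real.rpow_natCast]
        norm_num
      rw [e2, mul_pow]
      calc (t.1 : ℝ) * (CU ^ 2 * (Y ^ ((4 : ℝ) / 3)) ^ 2) ≤ (CR * Y ^ r) * (CU ^ 2 * Y ^ 3) := by
            gcongr
        _ = _ := by ring
    calc C0 * ((t.1 : ℝ) * (CU * Y ^ ((4 : ℝ) / 3)) ^ 2) ^ ε1 *
          ((2 * CR / c1 + 1 + CU) * Y ^ ((4 : ℝ) / 3)) ≤
        C0 * ((CR * CU ^ 2) ^ ε1 * Y ^ (((r : ℝ) + 3) * ε1)) *
          ((2 * CR / c1 + 1 + CU) * Y ^ ((4 : ℝ) / 3)) := by gcongr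
      _ = _ := by ring
  have hB2 : (((L ×ˢ range K).biUnion (fun t => s.filter
      (fun p => ¬ P p ∧ on S (hom R r p.1 p.2).natAbs = t.1 ∧ kk p = t.2))).card : ℝ) ≤
      (CS * CR ^ ε1) * CL * (C0 * (CR * CU ^ 2) ^ ε1 * (2 * CR / c1 + 1 + CU)) *
        Y ^ ((4 : ℝ) / 3 + ε) := by
    calc (((L ×ˢ range K).biUnion (fun t => s.filter
          (fun p => ¬ P p ∧ on S (hom R r p.1 p.2).natAbs = t.1 ∧ kk p = t.2))).card : ℝ) ≤
          ∑ t ∈ L ×ˢ range K, ((s.filter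
          (fun p => ¬ P p ∧ on S (hom R r p.1 p.2).natAbs = t.1 ∧ kk p = t.2)).card : ℝ) := by
          exact_mod_cast card_biUnion_le
      _ ≤ ∑ _t ∈ L ×ˢ range K, C0 * (CR * CU ^ 2) ^ ε1 * (2 * CR / c1 + 1 + CU) *
          (Y ^ (((r : ℝ) + 3) * ε1) * Y ^ ((4 : ℝ) / 3)) := sum_le_sum hB
      _ = ((L.card : ℝ) * (K : ℝ)) * (C0 * (CR * CU ^ 2) ^ ε1 * (2 * CR / c1 + 1 + CU) *
          (Y ^ (((r : ℝ) + 3) * ε1) * Y ^ ((4 : ℝ) / 3))) := by
          rw [sum_const, card_product, card_range, nsmul_eq_mul]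
          push_cast
          ring
      _ ≤ ((CS * (CR * Y ^ r) ^ ε1) * (CL * (Y ^ r) ^ ε1)) *
          (C0 * (CR * CU ^ 2) ^ ε1 * (2 * CR / c1 + 1 + CU) *
          (Y ^ (((r : ℝ) + 3) * ε1) * Y ^ ((4 : ℝ) / 3))) := by
          gcongr
      _ = (CS * CR ^ ε1) * CL * (C0 * (CR * CU ^ 2) ^ ε1 * (2 * CR / c1 + 1 + CU)) *
          ((Y ^ r) ^ ε1 * (Y ^ r) ^ ε1 * Y ^ (((r : ℝ) + 3) * ε1) * Y ^ ((4 : ℝ) / 3)) := by
          rw [Real.mul_rpow (by linarith) (by positivity)]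
          ring
      _ = _ := by
          congr 1
          rw [← Real.rpow_natCast Y r, ← Real.rpow_mul hY0.le, ← Real.rpow_add hY0,
            ← Real.rpow_add hY0, ← Real.rpow_add hY0]
          congr 1
          rw [hε1d]
          field_simp
          ring
  calc (s.card : ℝ) ≤ ((s.filter P ∪ (L ×ˢ range K).biUnion (fun t => s.filter
      (fun p => ¬ P p ∧ on S (hom R r p.1 p.2).natAbs = t.1 ∧ kk p = t.2))).card : ℝ) := by
        exact_mod_cast card_le_card hcov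
    _ ≤ ((s.filter P).card : ℝ) + (((L ×ˢ range K).biUnion (fun t => s.filter
      (fun p => ¬ P p ∧ on S (hom R r p.1 p.2).natAbs = t.1 ∧ kk p = t.2))).card : ℝ) := by
        exact_mod_cast card_union_le _ _
    _ ≤ CB * Y ^ ((4 : ℝ) / 3 + ε) + (CS * CR ^ ε1) * CL *
          (C0 * (CR * CU ^ 2) ^ ε1 * (2 * CR / c1 + 1 + CU)) * Y ^ ((4 : ℝ) / 3 + ε) :=
        add_le_add hA hB2
    _ = _ := by ring

end Pool.Agent.W4.VC
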