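import Pool.Agent.W4.VC.Stms
import Pool.Agent.H510R2.Div

/-!
# Project VC: the parts of an integer on and off a set of primes
-/

set_option autoImplicit false

namespace Pool.Agent.W4.VC

open Finset

/-- the part of `n` made of primes in `S` -/
def on (S : Finset ℕ) (n : ℕ) : ℕ :=
  ∏ p ∈ n.primeFactors.filter (fun p => p ∈ S), p ^ n.factorization p

theorem on_mul_off (S : Finset ℕ) (n : ℕ) (hn : n ≠ 0) : on S n * off S n = n := by
  unfold on off
  rw [prod_filter_mul_prod_filter_not]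
  exact Nat.prod_factorization_pow_eq_self hn

theorem off_pos (S : Finset ℕ) (n : ℕ) : 0 < off S n :=
  prod_pos fun p hp => pow_pos (Nat.prime_of_mem_primeFactors (mem_filter.mp hp).1).pos _

theorem on_pos (S : Finset ℕ) (n : ℕ) : 0 < on S n :=
  prod_pos fun p hp => pow_pos (Nat.prime_of_mem_primeFactors (mem_filter.mp hp).1).pos _

theorem off_dvd (S : Finset ℕ) (n : ℕ) (hn : n ≠ 0) : off S n ∣ n :=
  ⟨on S n, by rw [mul_comm]; exact (on_mul_off S n hn).symm⟩

theorem on_dvd (S : Finset ℕ) (n : ℕ) (hn : n ≠ 0) : on S n ∣ n :=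
  ⟨off S n, (on_mul_off S n hn).symm⟩

theorem off_dvd_off (S : Finset ℕ) {a b : ℕ} (hb : b ≠ 0) (h : a ∣ b) : off S a ∣ off S b := by
  have ha : a ≠ 0 := fun h0 => hb (by rw [h0, zero_dvd_iff] at h; exact h)
  unfold off
  have h1 : ∏ p ∈ a.primeFactors.filter (fun p => p ∉ S), p ^ a.factorization p ∣
      ∏ p ∈ a.primeFactors.filter (fun p => p ∉ S), p ^ b.factorization p := by
    apply prod_dvd_prod_of_dvd
    intro p _
    exact pow_dvd_pow p ((Nat.factorization_le_iff_dvd ha hb).mpr h p)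
  refine h1.trans ?_
  apply prod_dvd_prod_of_subset
  intro p hp
  rw [mem_filter] at hp ⊢
  exact ⟨Nat.primeFactors_mono h hb hp.1, hp.2⟩

theorem on_primeFactors (S : Finset ℕ) (n : ℕ) : ∀ p ∈ (on S n).primeFactors, p ∈ S := by
  intro p hp
  have hpp := Nat.prime_of_mem_primeFactors hp
  have hd := Nat.dvd_of_mem_primeFactors hp
  unfold on at hd
  obtain ⟨q, hq, hpq⟩ := (hpp.prime.dvd_finset_prod_iff _).mp hd
  rw [mem_filter] at hq
  have hqp := Nat.prime_of_mem_primeFactors hq.1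
  have h1 := hpp.dvd_of_dvd_pow hpq
  rw [(Nat.prime_dvd_prime_iff_eq hpp hqp).mp h1]
  exact hq.2

theorem off_prime_dvd (S : Finset ℕ) (n p : ℕ) (hp : p.Prime) (h : p ∣ off S n) : p ∉ S := by
  unfold off at h
  obtain ⟨q, hq, hpq⟩ := (hp.prime.dvd_finset_prod_iff _).mp h
  rw [mem_filter] at hq
  have hqp := Nat.prime_of_mem_primeFactors hq.1
  rw [(Nat.prime_dvd_prime_iff_eq hp hqp).mp (hp.dvd_of_dvd_pow hpq)]
  exact hq.2

theorem off_factorization (S : Finset ℕ) (n p : ℕ) (hn : n ≠ 0) (hp : p.Prime) (h : p ∉ S) :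
    (off S n).factorization p = n.factorization p := by
  have h1 := on_mul_off S n hn
  have h2 : (on S n).factorization p = 0 := by
    apply Nat.factorization_eq_zero_of_not_dvd
    intro hd
    exact h (on_primeFactors S n p (Nat.mem_primeFactors.mpr ⟨hp, hd, (on_pos S n).ne'⟩))
  conv_rhs => rw [← h1]
  rw [Nat.factorization_mul (on_pos S n).ne' (off_pos S n).ne', Finsupp.add_apply, h2, zero_add]

/-- few numbers up to `Z` have all prime factors in `S` -/
theorem smooth_count (S : Finset ℕ) (ε : ℝ) (hε : 0 < ε) : ∃ C : ℝ, 0 < C ∧ ∀ Z : ℝ, 1 ≤ Z →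
    ∃ L : Finset ℕ, (L.card : ℝ) ≤ C * Z ^ ε ∧ ∀ t : ℕ, 1 ≤ t → (t : ℝ) ≤ Z →
      (∀ p ∈ t.primeFactors, p ∈ S) → t ∈ L := by
  classical
  obtain ⟨C, hC, hdiv⟩ := Pool.Agent.H510R2.divisor_bound (ε / (S.card + 1)) (by positivity)
  refine ⟨C, hC, fun Z hZ => ?_⟩
  set z := ⌊Z⌋₊ with hz
  have hz1 : 1 ≤ z := by rw [hz, Nat.one_le_floor_iff]; exact hZ
  set S' := S.filter (fun p => p.Prime) with hS'
  set M := ∏ p ∈ S', p ^ Nat.log p z with hM
  have hM1 : 1 ≤ M := by
    rw [hM]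
    exact Nat.succ_le_of_lt (prod_pos fun p hp => pow_pos (mem_filter.mp hp).2.pos _)
  refine ⟨M.divisors, ?_, ?_⟩
  · refine (hdiv M hM1).trans ?_
    have h1 : (M : ℝ) ≤ Z ^ S.card := by
      rw [hM]
      push_cast
      calc ∏ p ∈ S', (p : ℝ) ^ Nat.log p z ≤ ∏ _p ∈ S', Z := by
            apply prod_le_prod (fun _ _ => by positivity)
            intro p _
            have h2 : p ^ Nat.log p z ≤ z := Nat.pow_log_le_self p (by omega)
            have h3 : ((p ^ Nat.log p z : ℕ) : ℝ) ≤ z := by exact_mod_cast h2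
            push_cast at h3
            exact h3.trans (Nat.floor_le (by linarith))
        _ = Z ^ S'.card := by rw [prod_const]
        _ ≤ Z ^ S.card := pow_le_pow_right₀ hZ (card_le_card (filter_subset _ _))
    have hM0 : (0 : ℝ) < M := by exact_mod_cast hM1
    have h4 : (M : ℝ) ^ (ε / (S.card + 1)) ≤ Z ^ ε := by
      calc (M : ℝ) ^ (ε / (S.card + 1)) ≤ (Z ^ S.card) ^ (ε / (S.card + 1)) := by gcongr
        _ = Z ^ ((S.card : ℝ) * (ε / (S.card + 1))) := by
            rw [← Real.rpow_natCast, ← Real.rpow_mul (by linarith)]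
        _ ≤ Z ^ ε := by
            apply Real.rpow_le_rpow_of_exponent_le hZ
            have : (S.card : ℝ) * (ε / (S.card + 1)) = ε * (S.card / (S.card + 1)) := by ring
            rw [this]
            have h5 : (S.card : ℝ) / (S.card + 1) ≤ 1 := by
              rw [div_le_one (by positivity)]
              linarith
            nlinarith
    gcongr
  · intro t ht1 htZ htS
    rw [Nat.mem_divisors]
    refine ⟨?_, by omega⟩
    have htz : t ≤ z := Nat.le_floor htZ
    conv_lhs => rw [← Nat.prod_factorization_pow_eq_self (by omega : t ≠ 0)]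
    show ∏ p ∈ t.primeFactors, p ^ t.factorization p ∣ M
    have h1 : ∏ p ∈ t.primeFactors, p ^ t.factorization p ∣
        ∏ p ∈ t.primeFactors, p ^ Nat.log p z := by
      apply prod_dvd_prod_of_dvd
      intro p hp
      apply pow_dvd_pow
      have hpp := Nat.prime_of_mem_primeFactors hp
      apply Nat.le_log_of_pow_le hpp.one_lt
      exact (Nat.le_of_dvd (by omega) (Nat.ordProj_dvd t p)).trans htz
    refine h1.trans ?_
    rw [hM]
    apply prod_dvd_prod_of_subset
    intro p hp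
    rw [hS', mem_filter]
    exact ⟨htS p hp, Nat.prime_of_mem_primeFactors hp⟩

theorem sq_dvd_prod {ι : Type} [DecidableEq ι] (s : Finset ι) (a : ι → ℕ) (p : ℕ) (hp : p.Prime)
    (h : p ^ 2 ∣ ∏ i ∈ s, a i) :
    (∃ i ∈ s, p ^ 2 ∣ a i) ∨ ∃ i ∈ s, ∃ j ∈ s, i ≠ j ∧ p ∣ a i ∧ p ∣ a j := by
  have h1 : p ∣ ∏ i ∈ s, a i := (dvd_pow_self p (by norm_num)).trans h
  obtain ⟨i, hi, hpi⟩ := (hp.prime.dvd_finset_prod_iff _).mp h1
  rcases em (p ∣ ∏ j ∈ s.erase i, a j) with h2 | h2
  · obtain ⟨j, hj, hpj⟩ := (hp.prime.dvd_finset_prod_iff _).mp h2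
    rw [mem_erase] at hj
    exact Or.inr ⟨i, hi, j, hj.2, hj.1.symm, hpi, hpj⟩
  · left
    refine ⟨i, hi, ?_⟩
    rw [← mul_prod_erase s a hi] at h
    exact Nat.Coprime.dvd_of_dvd_mul_right
      (Nat.Coprime.pow_left 2 ((Nat.Prime.coprime_iff_not_dvd hp).mpr h2)) h

end Pool.Agent.W4.VC
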